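import Pool.Agent.Y111.RC.Core

/-!
# Cost at most one from amenable 2-generated subgroups of a subgroup or of a generating set

Question Q1 of MP_7e9760_al (clause 6 of the theorem) and stronger forms: the hypothesis on
2-generated subgroups is only made on an infinite subgroup `M` from which `G` is reached by elements
tied to subgroups, or on a generating set with unbounded orders, or on a chain of finitely generated
subgroups.
-/

set_option autoImplicit false

open MeasureTheory Filter

namespace Pool.Agent.Results.MP_7e9760_al.RelativeCost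

/-- `G` is amenable: there is a left invariant finitely additive probability measure defined on all
subsets of `G`. -/
def Amenable (G : Type) [Group G] : Prop :=
  ∃ m : Set G → ℝ, (∀ A, 0 ≤ m A) ∧ m Set.univ = 1 ∧
    (∀ A B, Disjoint A B → m (A ∪ B) = m A + m B) ∧
    ∀ (g : G) (A : Set G), m ((fun x => g * x) '' A) = m A

/-- Any two elements of the set `X` generate an amenable subgroup. -/
def PairsAmenable {G : Type} [Group G] (X : Set G) : Prop :=
  ∀ a ∈ X, ∀ b ∈ X, Amenable (Subgroup.closure ({a, b} : Set G))

/-- `g` is tied to the subgroup `K`: for some `n ≥ 2`, one coset `K d` contains `(u g) ^ n` for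
infinitely many `u ∈ K`. -/
def Tied {G : Type} [Group G] (K : Subgroup G) (g : G) : Prop :=
  ∃ n : ℕ, 2 ≤ n ∧ ∃ d : G, {u : G | u ∈ K ∧ (u * g) ^ n * d⁻¹ ∈ K}.Infinite

/-- `(φ i : A i → X)` is a graphing of the action of `G` on `(X, μ)`: a countable family of Borel
bijections `φ i` from the Borel set `A i` onto the Borel set `φ i '' A i`, with `φ i x` in the orbit
of `x`, such that almost surely the connected components of the graph joining each `x ∈ A i` to
`φ i x` are exactly the `G`-orbits. -/
structure IsGraphing (G : Type) [Group G] {X : Type} [MeasurableSpace X] [MulAction G X]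
    (μ : Measure X) (A : ℕ → Set X) (φ : ℕ → X → X) : Prop where
  dom : ∀ i, MeasurableSet (A i)
  meas : ∀ i, Measurable (φ i)
  inj : ∀ i, Set.InjOn (φ i) (A i)
  img : ∀ i, MeasurableSet (φ i '' A i)
  orb : ∀ i, ∀ x ∈ A i, φ i x ∈ MulAction.orbit G x
  conn : ∀ᵐ x ∂μ, ∀ y : X,
    Relation.EqvGen (fun y z : X => ∃ i, y ∈ A i ∧ z = φ i y) x y ↔ y ∈ MulAction.orbit G x

/-- The cost of the action: the infimum of the costs `∑ i, μ (A i)` of its graphings. -/
noncomputable def actionCost (G : Type) [Group G] {X : Type} [MeasurableSpace X] [MulAction G X]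
    (μ : Measure X) : ENNReal :=
  sInf {c | ∃ (A : ℕ → Set X) (φ : ℕ → X → X), IsGraphing G μ A φ ∧ c = ∑' i, μ (A i)}

/-- The cost `C(G)`: the infimum of the costs of the measure-preserving Borel actions of `G` on
standard Borel probability spaces which are free outside a null set. -/
noncomputable def groupCost (G : Type) [Group G] : ENNReal :=
  sInf {c | ∃ (X : Type) (_ : MeasurableSpace X) (_ : StandardBorelSpace X) (μ : Measure X)
    (_ : IsProbabilityMeasure μ) (_ : MulAction G X),
    (∀ g : G, MeasurePreserving (fun x : X => g • x) μ μ) ∧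
    (∀ᵐ x ∂μ, ∀ g : G, g • x = x → g = 1) ∧ c = actionCost G μ}

theorem groupCost_le {G : Type} [Group G] [Countable G]
    (h : ∀ ε : ENNReal, 0 < ε → Pool.Agent.W336.CS.CostLe G (1 + ε)) : groupCost G ≤ 1 := by
  refine le_of_forall_pos_le_add (fun ε hε => ?_)
  obtain ⟨X, h1, h2, μ, h3, h4, h5, h6, A, s, h7, h8, h9⟩ := h ε hε
  refine le_trans ?_ h9
  refine le_trans (sInf_le ⟨X, h1, h2, μ, h3, h4, h5, h6, rfl⟩) ?_
  have hinj : ∀ g : G, Function.Injective (fun x : X => g • x) := fun g => MulAction.injective g
  refine sInf_le ⟨A, fun i x => s i • x, ?_, rfl⟩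
  refine ⟨h7, fun i => (h5 (s i)).measurable, fun i => (hinj (s i)).injOn, fun i => ?_,
    fun i x _ => ⟨s i, rfl⟩, ?_⟩
  · have : (fun x : X => s i • x) '' A i = (fun x : X => (s i)⁻¹ • x) ⁻¹' A i := by
      ext y
      constructor
      · rintro ⟨x, hx, rfl⟩
        simpa using hx
      · intro hy
        exact ⟨(s i)⁻¹ • y, hy, by simp⟩
    rw [this]
    exact (h5 (s i)⁻¹).measurable (h7 i)
  · filter_upwards [h8] with x hx y
    constructor
    · intro h
      have key : ∀ y z : X, Relation.EqvGen (fun y z : X => ∃ i, y ∈ A i ∧ z = s i • y) y z →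
          z ∈ MulAction.orbit G y := by
        intro y z h
        induction h with
        | rel x y h =>
          obtain ⟨i, _, rfl⟩ := h
          exact ⟨s i, rfl⟩
        | refl x => exact MulAction.mem_orbit_self x
        | symm x y _ ih => exact MulAction.mem_orbit_symm.1 ih
        | trans x y z _ _ ih1 ih2 =>
          rw [← MulAction.orbit_eq_iff] at ih1 ih2 ⊢
          rw [ih2, ih1]
      exact key x y h
    · rintro ⟨g, rfl⟩
      have key : ∀ y : X, Relation.ReflTransGen
          (fun y z : X => ∃ i, (y ∈ A i ∧ z = s i • y) ∨ (z ∈ A i ∧ y = s i • z)) x y →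
          Relation.EqvGen (fun y z : X => ∃ i, y ∈ A i ∧ z = s i • y) x y := by
        intro y h
        induction h with
        | refl => exact Relation.EqvGen.refl _
        | tail _ h ih =>
          refine Relation.EqvGen.trans _ _ _ ih ?_
          obtain ⟨i, ⟨h, rfl⟩ | ⟨h, rfl⟩⟩ := h
          · exact Relation.EqvGen.rel _ _ ⟨i, h, rfl⟩
          · exact Relation.EqvGen.symm _ _ (Relation.EqvGen.rel _ _ ⟨i, h, rfl⟩)
      exact key _ (hx g)

theorem fol {G : Type} [Group G] (h : Amenable G) : Pool.Agent.W336.CS.Fol G :=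
  Pool.Agent.W361.CS.fol G h

theorem clause2 (G : Type) [Group G] [Countable G] (M : Subgroup G) (hM : (M : Set G).Infinite)
    (h2 : PairsAmenable (M : Set G))
    (hK : ∀ K : Subgroup G, M ≤ K → (∀ g, Tied K g → g ∈ K) → K = ⊤) : groupCost G ≤ 1 :=
  groupCost_le (Pool.Agent.Y111.RC.amen2_cost M hM (fun a ha b hb => fol (h2 a ha b hb)) hK)

theorem finite_cost (G : Type) [Group G] [Finite G] : groupCost G ≤ 1 := by
  classical
  refine groupCost_le (fun ε hε => ?_)
  have := Fintype.ofFinite G
  have h0 : Pool.Agent.W336.CS.Fol (Subgroup.closure ((Finset.univ : Finset G) : Set G)) :=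
    Pool.Agent.W336.CS.fol_finite _
  have h1 := Pool.Agent.W336.CS.rc_start Pool.Agent.W22.CS.cnt Pool.Agent.W336.CS.all_fe
    (Finset.univ : Finset G) h0 ε hε
  rw [Finset.coe_univ] at h1
  exact (Pool.Agent.Y111.RC.Fam.rc h1 (Set.empty_subset _)).cost

/-- Let `G` be a countable group.
1. Let `F i` be finite subsets with `∑ 1 / |⟨F i⟩| < ∞` (`1 / ∞ = 0`) such that `F i` and `F (i + 1)`
together generate an amenable group, for all `i`. If `G` is the only subgroup `K` which contains
`F i` for all large `i`, every element tied to `K`, and every `g` for which `F i ∪ {g}` generates an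
amenable group for infinitely many `i`, then `C(G) ≤ 1`.
2. Let `M` be an infinite subgroup any two elements of which generate an amenable group. If `G` is
the only subgroup `K ⊇ M` which contains every element tied to `K`, then `C(G) ≤ 1`.
3. If `G` has an infinite normal subgroup any two elements of which generate an amenable group, then
`C(G) ≤ 1`.
4. If `G` has finite exponent and has an infinite subgroup any two elements of which generate an
amenable group, then `C(G) ≤ 1`.
5. If `G` is generated by a set `X` any two elements of which generate an amenable group, and `X`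
has elements of infinite order or of arbitrarily large order, then `C(G) ≤ 1`.
6. (Q1) If any two elements of `G` generate an amenable group, then `C(G) ≤ 1`. -/
theorem result :
    (∀ (G : Type) [Group G] [Countable G] (F : ℕ → Finset G),
      (Summable fun i => (1 : ℝ) / Nat.card (Subgroup.closure (F i : Set G))) →
      (∀ i, Amenable (Subgroup.closure ((F i : Set G) ∪ (F (i + 1) : Set G)))) →
      (∀ K : Subgroup G, (∀ᶠ i in atTop, (F i : Set G) ⊆ K) → (∀ g, Tied K g → g ∈ K) →
        (∀ g, (∃ᶠ i in atTop, Amenable (Subgroup.closure ((F i : Set G) ∪ {g}))) → g ∈ K) →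
        K = ⊤) → groupCost G ≤ 1) ∧
    (∀ (G : Type) [Group G] [Countable G] (M : Subgroup G), (M : Set G).Infinite →
      PairsAmenable (M : Set G) →
      (∀ K : Subgroup G, M ≤ K → (∀ g, Tied K g → g ∈ K) → K = ⊤) → groupCost G ≤ 1) ∧
    (∀ (G : Type) [Group G] [Countable G] (M : Subgroup G), (M : Set G).Infinite →
      PairsAmenable (M : Set G) → M.Normal → groupCost G ≤ 1) ∧
    (∀ (G : Type) [Group G] [Countable G] (n : ℕ), 0 < n → (∀ x : G, x ^ n = 1) →
      ∀ M : Subgroup G, (M : Set G).Infinite → PairsAmenable (M : Set G) → groupCost G ≤ 1) ∧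
    (∀ (G : Type) [Group G] [Countable G] (X : Set G), Subgroup.closure X = ⊤ →
      PairsAmenable X → (∀ N : ℕ, ∃ u ∈ X, orderOf u = 0 ∨ N < orderOf u) → groupCost G ≤ 1) ∧
    (∀ (G : Type) [Group G] [Countable G], PairsAmenable (Set.univ : Set G) →
      groupCost G ≤ 1) := by
  refine ⟨?_, clause2, ?_, ?_, ?_, ?_⟩
  · intro G _ _ F hs ha hK
    refine groupCost_le (Pool.Agent.Y111.RC.chain_cost F hs (fun i => fol (ha i)) ?_)
    intro K h1 h2 h3
    refine hK K h1 h2 (fun g hg => h3 g (hg.mono fun i hi => fol hi))
  · intro G _ _ M hM h2 hn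
    refine clause2 G M hM h2 (fun K hMK hK => ?_)
    rw [eq_top_iff]
    intro g _
    refine hK g ⟨2, le_rfl, g * g, hM.mono ?_⟩
    intro u hu
    refine ⟨hMK hu, ?_⟩
    have h3 : (u * g) ^ 2 * (g * g)⁻¹ = u * (g * u * g⁻¹) := by
      rw [pow_two]
      group
    rw [h3]
    exact K.mul_mem (hMK hu) (hMK (hn.conj_mem u hu g))
  · intro G _ _ n hn hexp M hM h2
    refine clause2 G M hM h2 (fun K hMK hK => ?_)
    rw [eq_top_iff]
    intro g _
    refine hK g ⟨2 * n, by omega, 1, hM.mono ?_⟩
    intro u hu
    refine ⟨hMK hu, ?_⟩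
    rw [mul_comm 2, pow_mul, hexp]
    simp
  · intro G _ _ X hX h2 hN
    refine groupCost_le (Pool.Agent.Y111.RC.gen_cost ⊤ X hX
      (fun a ha b hb => fol (h2 a ha b hb)) hN (fun K h _ => top_le_iff.1 h))
  · intro G _ _ h2
    rcases finite_or_infinite G with hf | hi
    · exact finite_cost G
    · refine clause2 G ⊤ ?_ ?_ (fun K h _ => top_le_iff.1 h)
      · rw [Subgroup.coe_top]
        exact Set.infinite_univ
      · rw [Subgroup.coe_top]
        exact h2

end Pool.Agent.Results.MP_7e9760_al.RelativeCost
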